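import Mathlib
import Pool.Agent.Helper11.Can.Defs

/-!
# Specialisation of bases to the algebraic closure (piece CAN-L4, MP_5f0950_ag)
-/

universe u v t

open Finset Matrix

namespace Pool.Agent.Helper11.Can

open Pool.Agent.Helper10.GIT Pool.Agent.Helper11.GIT Pool.Agent.Helper11.Can

variable {P : ℕ} {d : Fin P → ℕ}

/-- CAN-L4: specialisation of bases to the algebraic closure -/
theorem exists_specialize {K : Type v} [Field K] {κ : Type t} [Field κ] [Algebra K κ]
    (h : Mats d κ) (hh : ∀ c, (h c).det ≠ 0) :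
    ∃ h' : Mats d (AlgebraicClosure K), (∀ c, (h' c).det ≠ 0) ∧
      ∀ A : Family d K, suppW h' (ext (AlgebraicClosure K) A) ⊆ suppW h (ext κ A) := by
  classical
  set S : Set κ := (⋃ c, Set.range fun p : Fin (d c) × Fin (d c) => h c p.1 p.2) ∪
    Set.range fun c => ((h c).det)⁻¹ with hS
  have hSfin : S.Finite := (Set.finite_iUnion fun c => Set.finite_range _).union (Set.finite_range _)
  set B : Subalgebra K κ := Algebra.adjoin K S with hB
  have hft : Algebra.FiniteType K B := Algebra.FiniteType.adjoin_of_finite hSfin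
  obtain ⟨I, hI⟩ := Ideal.exists_maximal B
  let _ : Field (B ⧸ I) := Ideal.Quotient.field I
  have hft2 : Algebra.FiniteType K (B ⧸ I) :=
    Algebra.FiniteType.of_surjective (Ideal.Quotient.mkₐ K I) (Ideal.Quotient.mkₐ_surjective K I)
  have hfin : Module.Finite K (B ⧸ I) := finite_of_finite_type_of_isJacobsonRing K (B ⧸ I)
  let φ : B →ₐ[K] AlgebraicClosure K :=
    (IsAlgClosed.lift : (B ⧸ I) →ₐ[K] AlgebraicClosure K).comp (Ideal.Quotient.mkₐ K I)
  have hmem : ∀ c i j, h c i j ∈ B := fun c i j =>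
    Algebra.subset_adjoin (Or.inl (Set.mem_iUnion.2 ⟨c, ⟨(i, j), rfl⟩⟩))
  have hmemd : ∀ c, ((h c).det)⁻¹ ∈ B := fun c => Algebra.subset_adjoin (Or.inr ⟨c, rfl⟩)
  let H : Mats d B := fun c => Matrix.of fun i j => ⟨h c i j, hmem c i j⟩
  have hval : ∀ c, (H c).map (B.val : B →+* κ) = h c := by
    intro c
    ext i j
    rfl
  have hdet : ∀ c, IsUnit (H c).det := by
    intro c
    rw [isUnit_iff_exists_inv]
    refine ⟨⟨((h c).det)⁻¹, hmemd c⟩, ?_⟩
    apply Subtype.ext
    have h1 : ((H c).det : κ) = (h c).det := by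
      have := RingHom.map_det (B.val : B →+* κ) (H c)
      rw [← hval c]
      exact this
    change ((H c).det : κ) * ((h c).det)⁻¹ = 1
    rw [h1]
    exact mul_inv_cancel₀ (hh c)
  refine ⟨fun c => (H c).map (φ : B →+* AlgebraicClosure K), ?_, ?_⟩
  · intro c
    have h1 : ((H c).map (φ : B →+* AlgebraicClosure K)).det = (φ : B →+* _) (H c).det :=
      (RingHom.map_det _ _).symm
    rw [h1]
    exact ((hdet c).map (φ : B →+* AlgebraicClosure K)).ne_zero
  · have hinj : Function.Injective (B.val : B →+* κ) := Subtype.val_injective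
    intro A w hw
    obtain ⟨z', ⟨z, hz, rfl⟩, hw'⟩ := hw
    refine ⟨_, ⟨z, hz, rfl⟩, ?_⟩
    let z0 : Ten d B w.1 := fun w' => algebraMap K B (z w')
    have e1 : emb (AlgebraicClosure K) z = fun w' => (φ : B →+* AlgebraicClosure K) (z0 w') := by
      funext w'
      exact (φ.commutes (z w')).symm
    have e2 : emb κ z = fun w' => (B.val : B →+* κ) (z0 w') := rfl
    have e3 : sh (fun c => (H c).map (φ : B →+* AlgebraicClosure K)) w.1 =
        fun i => (sh H w.1 i).map (φ : B →+* AlgebraicClosure K) := rfl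
    have e4 : sh h w.1 = fun i => (sh H w.1 i).map (B.val : B →+* κ) := by
      funext i
      exact (hval (w.1.2 i)).symm
    rw [e1, e3, act_map] at hw'
    rw [e2, e4, act_map]
    intro h3
    apply hw'
    have h4 : act (sh H w.1) z0 w.2 = 0 := by
      apply hinj
      rw [map_zero]
      exact h3
    change (φ : B →+* AlgebraicClosure K) (act (sh H w.1) z0 w.2) = 0
    rw [h4, map_zero]

end Pool.Agent.Helper11.Can
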